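import Pool.Agent.Helper40.Nm.Goals

/-!
Packet GENA of MP_f619a5_ag: an element of a smooth domain over a discrete valuation ring is a
power of the uniformiser times an element which does not vanish on the special fibre.
-/

open TensorProduct Pool.Agent.Helper40.Nm

namespace Pool.Agent.Helper86.Nm

/-- A smooth algebra over an algebraically closed field is reduced. -/
theorem isReduced_of_smooth (k S : Type) [Field k] [IsAlgClosed k] [CommRing S] [Algebra k S]
    [Algebra.Smooth k S] : IsReduced S := by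
  constructor
  intro s hs
  obtain ⟨n, hn⟩ := hs
  set x : S ⊗[k] (Polynomial k) := s ⊗ₜ[k] (Polynomial.X : Polynomial k) with hx
  have hxn : x ^ n = 0 := by
    rw [hx, Algebra.TensorProduct.tmul_pow, hn, zero_tmul]
  have hint : IsIntegral S x := by
    refine ⟨Polynomial.X ^ n, Polynomial.monic_X_pow n, ?_⟩
    simp [hxn]
  obtain ⟨y, hy⟩ := (TensorProduct.toIntegralClosure_bijective_of_smooth
    (R := k) (S := S) (B := Polynomial k)).2 ⟨x, hint⟩
  have hy' : (Algebra.TensorProduct.map (.id _ _)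
      (integralClosure k (Polynomial k)).val : S ⊗[k] integralClosure k (Polynomial k) →ₐ[S]
        S ⊗[k] Polynomial k) y = x := congrArg Subtype.val hy
  -- the first coefficient kills the integral closure
  have hcoef : ∀ p ∈ integralClosure k (Polynomial k), Polynomial.lcoeff k 1 p = 0 := by
    intro p hp
    have hb := IsAlgClosed.algebraMap_bijective_of_isIntegral
      (k := k) (K := integralClosure k (Polynomial k))
    obtain ⟨c, hc⟩ := hb.2 ⟨p, hp⟩
    have : p = Polynomial.C c := by
      have := congrArg Subtype.val hc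
      exact this.symm
    rw [this]
    simp [Polynomial.lcoeff_apply]
  have key : ∀ z : S ⊗[k] integralClosure k (Polynomial k),
      (LinearMap.lTensor S (Polynomial.lcoeff k 1))
        ((Algebra.TensorProduct.map (.id S S)
          (integralClosure k (Polynomial k)).val : S ⊗[k] integralClosure k (Polynomial k) →ₐ[S]
            S ⊗[k] Polynomial k) z) = 0 := by
    intro z
    induction z with
    | zero => simp
    | add a b ha hb => rw [map_add, map_add, ha, hb, add_zero]
    | tmul a b =>
      simp only [Algebra.TensorProduct.map_tmul, AlgHom.coe_id, id_eq, Subalgebra.coe_val,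
        LinearMap.lTensor_tmul]
      rw [hcoef _ b.2, tmul_zero]
  have h0 := key y
  rw [hy', hx, LinearMap.lTensor_tmul] at h0
  have h1 : (Polynomial.lcoeff k 1) (Polynomial.X : Polynomial k) = 1 := by
    simp [Polynomial.lcoeff_apply]
  rw [h1] at h0
  have := congrArg (TensorProduct.rid k S) h0
  simpa using this

theorem ker_residue (R C : Type) [CommRing R] [IsLocalRing R] [CommRing C] [Algebra R C] (ϖ : R)
    (hm : IsLocalRing.maximalIdeal R = Ideal.span {ϖ}) (c : C)
    (hc : (1 : IsLocalRing.ResidueField R) ⊗ₜ[R] c = 0) : algebraMap R C ϖ ∣ c := by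
  have h1 : (TensorProduct.quotTensorEquivQuotSMul C (IsLocalRing.maximalIdeal R))
      ((Ideal.Quotient.mk (IsLocalRing.maximalIdeal R) 1) ⊗ₜ c) = 0 := by
    have : ((Ideal.Quotient.mk (IsLocalRing.maximalIdeal R) 1) ⊗ₜ[R] c :
      (R ⧸ IsLocalRing.maximalIdeal R) ⊗[R] C) = 0 := hc
    rw [this, map_zero]
  rw [TensorProduct.quotTensorEquivQuotSMul_mk_tmul, one_smul,
    Submodule.Quotient.mk_eq_zero, hm, Submodule.ideal_span_singleton_smul] at h1
  obtain ⟨y, -, hy⟩ := h1
  refine ⟨y, ?_⟩
  rw [← Algebra.smul_def, ← hy]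
  rfl

theorem gena : GENA := by
  intro R C _ _ _ _ _ _ _ _ ϖ h hϖ hunit hh
  have : IsNoetherianRing C := Algebra.FiniteType.isNoetherianRing R C
  have hfm : FiniteMultiplicity (algebraMap R C ϖ) h := FiniteMultiplicity.of_not_isUnit hunit hh
  obtain ⟨F, hF, hnd⟩ := hfm.exists_eq_pow_mul_and_not_dvd
  refine ⟨_, F, hF, ?_⟩
  set k := IsLocalRing.ResidueField R with hk
  have hred : IsReduced (k ⊗[R] C) := isReduced_of_smooth k (k ⊗[R] C)
  set φ : C →+* k ⊗[R] C := (Algebra.TensorProduct.includeRight : C →ₐ[R] k ⊗[R] C).toRingHom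
    with hφ
  have hker : ∀ c, φ c = 0 → algebraMap R C ϖ ∣ c := fun c hc =>
    ker_residue R C ϖ hϖ.maximalIdeal_eq c hc
  have hF0 : φ F ≠ 0 := fun hz => hnd (hker F hz)
  have hnil : φ F ∉ nilradical (k ⊗[R] C) := by
    intro hz
    exact hF0 ((mem_nilradical.1 hz).eq_zero)
  rw [nilradical_eq_sInf, Ideal.mem_sInf] at hnil
  push Not at hnil
  obtain ⟨𝔮, h𝔮, hF𝔮⟩ := hnil
  have : 𝔮.IsPrime := h𝔮
  refine ⟨𝔮.comap φ, Ideal.comap_isPrime φ 𝔮, ?_, ?_⟩
  · rw [Ideal.mem_comap]
    have : φ (algebraMap R C ϖ) = 0 := by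
      have h2 : φ (algebraMap R C ϖ) = algebraMap R (k ⊗[R] C) ϖ :=
        (Algebra.TensorProduct.includeRight : C →ₐ[R] k ⊗[R] C).commutes ϖ
      rw [h2, IsScalarTower.algebraMap_apply R k (k ⊗[R] C)]
      have : algebraMap R k ϖ = 0 := by
        exact (IsLocalRing.residue_eq_zero_iff ϖ).2
          ((IsLocalRing.mem_maximalIdeal ϖ).2 hϖ.not_isUnit)
      rw [this, map_zero]
    rw [this]
    exact 𝔮.zero_mem
  · exact hF𝔮

end Pool.Agent.Helper86.Nm
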